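import Pool.Agent.H54.TS.Defs

/-!
# Project TS, module P1: uncountably chromatic triple systems contain grids
-/

set_option autoImplicit false

universe u v w

namespace Pool.Agent.H54.TS

/-- the statement of `eh_lemma` for the type `V` -/
def EHStmt (V : Type u) : Prop :=
  ∀ (H : Set (Set V)) (g : Finset V → Set V)
    (_ : ∀ A, (g A).Countable) (_ : ∀ h ∈ H, ∃ x ∈ h, ∃ y ∈ h, x ≠ y)
    (_ : ∀ S M : Set V, M ⊆ S → (∀ A : Finset V, (A : Set V) ⊆ M → g A ∩ S ⊆ M) →
      ∀ v ∈ S, v ∉ M → {u | u ∈ M ∧ ∃ h ∈ H, h ⊆ S ∧ u ∈ h ∧ v ∈ h}.Finite),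
    ∃ c : V → ℕ, ∀ h ∈ H, ¬ ∃ a, ∀ x ∈ h, c x = a

section

variable {V : Type u} (K : TripleSystem V)

open Classical in
/-- `{x, y, z}` is a triple -/
def T3 (x y z : V) : Prop := ({x, y, z} : Finset V) ∈ K.triples

variable {K}

theorem T3.swap {x y z : V} (h : T3 K x y z) : T3 K y x z := by
  classical
  have e : ({x, y, z} : Finset V) = {y, x, z} := by
    ext w; simp only [Finset.mem_insert, Finset.mem_singleton]; tauto
  unfold T3 at h ⊢
  convert h using 1
  convert e.symm

theorem T3.swap' {x y z : V} (h : T3 K x y z) : T3 K x z y := by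
  classical
  have e : ({x, y, z} : Finset V) = {x, z, y} := by
    ext w; simp only [Finset.mem_insert, Finset.mem_singleton]; tauto
  unfold T3 at h ⊢
  convert h using 1
  convert e.symm

theorem T3.ne {x y z : V} (h : T3 K x y z) : x ≠ y ∧ x ≠ z ∧ y ≠ z := by
  classical
  have h3 := K.card_eq _ h
  refine ⟨?_, ?_, ?_⟩ <;> rintro rfl
  · have : ({x, x, z} : Finset V).card ≤ 2 := by
      simp only [Finset.mem_insert, Finset.mem_singleton, true_or, Finset.insert_eq_of_mem]
      exact Finset.card_le_two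
    convert absurd h3 (by
      convert (show ({x, x, z} : Finset V).card ≠ 3 by omega) using 1) using 1
  · have : ({x, y, x} : Finset V).card ≤ 2 := by
      have e : ({x, y, x} : Finset V) = {x, y} := by ext w; simp; tauto
      rw [e]
      exact Finset.card_le_two
    convert absurd h3 (by
      convert (show ({x, y, x} : Finset V).card ≠ 3 by omega) using 1) using 1
  · have : ({x, y, y} : Finset V).card ≤ 2 := by
      have e : ({x, y, y} : Finset V) = {x, y} := by ext w; simp
      rw [e]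
      exact Finset.card_le_two
    convert absurd h3 (by
      convert (show ({x, y, y} : Finset V).card ≠ 3 by omega) using 1) using 1

variable (K)

/-- the third vertices of the triples containing `x` and `y` -/
def codeg (x y : V) : Set V := {z | T3 K x y z}

/-- a star over `a` avoiding `T` -/
def Star {N : ℕ} (a : Fin N → V) (T : Set V) : Prop :=
  ∃ (v : V) (c : Fin N → V), (∀ i, T3 K (a i) v (c i)) ∧ Function.Injective c ∧ v ∉ T ∧
    (∀ i, c i ∉ T) ∧ v ∉ Set.range a ∧ (∀ i, c i ∉ Set.range a)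

end

/-- systems of distinct representatives of infinite sets -/
theorem sdr {V : Type u} : ∀ (N : ℕ) (C : Fin N → Set V), (∀ i, (C i).Infinite) → ∀ F : Set V,
    F.Finite → ∃ c : Fin N → V, Function.Injective c ∧ (∀ i, c i ∈ C i) ∧ ∀ i, c i ∉ F := by
  intro N
  induction N with
  | zero =>
    intro C _ F _
    exact ⟨Fin.elim0, fun i => i.elim0, fun i => i.elim0, fun i => i.elim0⟩
  | succ N ih =>
    intro C hC F hF
    obtain ⟨x, hx, hxF⟩ := (hC 0).exists_notMem_finite hF
    obtain ⟨c, hc1, hc2, hc3⟩ := ih (fun i => C i.succ) (fun i => hC i.succ) (insert x F)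
      (hF.insert x)
    refine ⟨Fin.cons x c, ?_, ?_, ?_⟩
    · rw [Fin.cons_injective_iff]
      refine ⟨?_, hc1⟩
      rintro ⟨i, rfl⟩
      exact hc3 i (Set.mem_insert _ _)
    · intro i
      refine Fin.cases ?_ (fun i => ?_) i
      · simpa using hx
      · simpa using hc2 i
    · intro i
      refine Fin.cases ?_ (fun i => ?_) i
      · simpa using hxF
      · simpa using fun h => hc3 i (Set.mem_insert_of_mem _ h)

section

variable {V : Type u} {K : TripleSystem V}

theorem exists_T {N : ℕ} (hK : ¬ HasGrid K N) (a : Fin N → V) (ha : Function.Injective a) :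
    ∃ T : Set V, T.Finite ∧ ¬ Star K a T := by
  classical
  by_contra hcon
  push Not at hcon
  apply hK
  set P : V × (Fin N → V) → Prop := fun x => (∀ i, T3 K (a i) x.1 (x.2 i)) ∧
    Function.Injective x.2 ∧ x.1 ∉ Set.range a ∧ (∀ i, x.2 i ∉ Set.range a) with hP
  set r : V × (Fin N → V) → V × (Fin N → V) → Prop := fun x y =>
    (y.1 ≠ x.1 ∧ ∀ i, y.1 ≠ x.2 i) ∧ ∀ j, (y.2 j ≠ x.1 ∧ ∀ i, y.2 j ≠ x.2 i) with hr
  obtain ⟨f, hf1, hf2⟩ := exists_seq_of_forall_finset_exists P r (by
    intro s _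
    obtain ⟨v, c, h1, h2, h3, h4, h5, h6⟩ := hcon
      (⋃ x ∈ s, insert x.1 (Set.range x.2)) (Set.Finite.biUnion s.finite_toSet fun x _ =>
        (Set.finite_range _).insert _)
    refine ⟨(v, c), ⟨h1, h2, h5, h6⟩, ?_⟩
    intro x hx
    have key : ∀ z, z ∉ (⋃ x ∈ s, insert x.1 (Set.range x.2)) → z ≠ x.1 ∧ ∀ i, z ≠ x.2 i := by
      intro z hz
      refine ⟨?_, fun i => ?_⟩ <;> rintro rfl <;> apply hz <;>
        exact Set.mem_biUnion hx (by simp)
    exact ⟨key v h3, fun j => key (c j) (h4 j)⟩)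
  refine ⟨a, fun j => (f j).1, fun i j => (f j).2 i, ?_, ?_⟩
  · have hbc : ∀ j i j', (f j).1 ≠ (f j').2 i := by
      intro j i j'
      rcases lt_trichotomy j j' with h | rfl | h
      · exact fun e => ((hf2 _ _ h).2 i).1 e.symm
      · exact ((hf1 j).1 i).ne.2.2
      · exact (hf2 _ _ h).1.2 i
    have hcc : ∀ i j i' j', (f j).2 i = (f j').2 i' → (i, j) = (i', j') := by
      intro i j i' j' e
      rcases lt_trichotomy j j' with h | rfl | h
      · exact (((hf2 _ _ h).2 i').2 i e.symm).elim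
      · rw [(hf1 j).2.1 e]
      · exact (((hf2 _ _ h).2 i).2 i' e).elim
    refine Function.Injective.sumElim ha (Function.Injective.sumElim ?_ ?_ ?_) ?_
    · intro j j' e
      apply Fin.ext
      rcases lt_trichotomy (j : ℕ) j' with h | h | h
      · exact (((hf2 _ _ h).1.1) e.symm).elim
      · exact h
      · exact (((hf2 _ _ h).1.1) e).elim
    · rintro ⟨i, j⟩ ⟨i', j'⟩ e
      have := hcc i j i' j' e
      simp only [Prod.mk.injEq] at this
      exact Prod.ext this.1 (Fin.ext this.2)
    · rintro j ⟨i, j'⟩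
      exact hbc j i j'
    · rintro i (j | ⟨i', j⟩)
      · intro e
        exact (hf1 j).2.2.1 ⟨i, e⟩
      · intro e
        exact (hf1 j).2.2.2 i' ⟨i, e⟩
  · intro i j
    exact (hf1 j).1 i

/-- from `EHStmt`: uncountably chromatic triple systems contain all grids -/
theorem grid_of (eh : EHStmt V) (hK : K.Unc) (N : ℕ) : HasGrid K N := by
  classical
  by_contra hgrid
  choose! T hT1 hT2 using fun (a : Fin N → V) (ha : Function.Injective a) => exists_T hgrid a ha
  apply hK
  set strong : V → V → Prop := fun x y => (codeg K x y).Infinite with hstrong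
  have hsne : ∀ x y, strong x y → x ≠ y := by
    rintro x y h rfl
    obtain ⟨z, hz⟩ := h.nonempty
    exact (T3.ne hz).1 rfl
  have hcsymm : ∀ x y, codeg K x y = codeg K y x := by
    intro x y
    ext z
    exact ⟨T3.swap, T3.swap⟩
  have hssymm : ∀ x y, strong x y → strong y x := by
    intro x y h
    rw [hstrong] at h ⊢
    simp only at h ⊢
    rwa [hcsymm]
  set H : Set (Set V) := {h | (∃ x y, strong x y ∧ h = {x, y}) ∨
    ∃ t ∈ K.triples, (∀ x ∈ t, ∀ y ∈ t, ¬ strong x y) ∧ h = (t : Set V)} with hH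
  set g : Finset V → Set V := fun A =>
    (⋃ a ∈ {a : Fin N → V | Function.Injective a ∧ ∀ i, a i ∈ A}, T a) ∪
    ⋃ p ∈ {p : V × V | (p.1 ∈ A ∧ p.2 ∈ A) ∧ ¬ strong p.1 p.2}, codeg K p.1 p.2 with hg
  have h1 : ∀ A, (g A).Countable := by
    intro A
    refine Set.Countable.union ?_ ?_
    · refine Set.Countable.biUnion ?_ ?_
      · have : (Set.pi Set.univ fun _ : Fin N => (A : Set V)).Finite :=
          Set.Finite.pi fun _ => A.finite_toSet
        refine (this.subset ?_).countable
        intro a ha i _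
        exact ha.2 i
      · intro a ha
        exact (hT1 a ha.1).countable
    · refine Set.Countable.biUnion ?_ ?_
      · have : ((A : Set V) ×ˢ (A : Set V)).Finite := A.finite_toSet.prod A.finite_toSet
        refine (this.subset ?_).countable
        rintro p ⟨hp, _⟩
        exact hp
      · rintro p ⟨_, hp⟩
        exact (Set.not_infinite.mp hp).countable
  have h2 : ∀ h ∈ H, ∃ x ∈ h, ∃ y ∈ h, x ≠ y := by
    rintro h (⟨x, y, hxy, rfl⟩ | ⟨t, ht, _, rfl⟩)
    · exact ⟨x, by simp, y, by simp, hsne x y hxy⟩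
    · obtain ⟨x, y, z, hxy, -, -, rfl⟩ := Finset.card_eq_three.mp (K.card_eq t ht)
      exact ⟨x, by simp, y, by simp, hxy⟩
  have h3 : ∀ S M : Set V, M ⊆ S → (∀ A : Finset V, (A : Set V) ⊆ M → g A ∩ S ⊆ M) →
      ∀ v ∈ S, v ∉ M → {u | u ∈ M ∧ ∃ h ∈ H, h ⊆ S ∧ u ∈ h ∧ v ∈ h}.Finite := by
    intro S M hMS hclosed v hvS hvM
    have hTS : ∀ a : Fin N → V, Function.Injective a → (∀ i, a i ∈ M) → ∀ z ∈ T a, z ∈ S → z ∈ M := by
      intro a ha haM z hz hzS
      refine hclosed (Finset.univ.image a) ?_ ⟨Or.inl ?_, hzS⟩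
      · intro x hx
        obtain ⟨i, _, rfl⟩ := Finset.mem_image.mp hx
        exact haM i
      · exact Set.mem_biUnion (show a ∈ {a : Fin N → V | Function.Injective a ∧
          ∀ i, a i ∈ Finset.univ.image a} from
          ⟨ha, fun i => Finset.mem_image_of_mem _ (Finset.mem_univ i)⟩) hz
    have hcS : ∀ x y, x ∈ M → y ∈ M → ¬ strong x y → ∀ z ∈ codeg K x y, z ∈ S → z ∈ M := by
      intro x y hx hy hxy z hz hzS
      refine hclosed {x, y} ?_ ⟨Or.inr ?_, hzS⟩
      · intro w hw
        simp only [Finset.coe_insert, Finset.coe_singleton, Set.mem_insert_iff,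
          Set.mem_singleton_iff] at hw
        rcases hw with rfl | rfl
        · exact hx
        · exact hy
      · exact Set.mem_biUnion (show (x, y) ∈ {p : V × V | (p.1 ∈ ({x, y} : Finset V) ∧
          p.2 ∈ ({x, y} : Finset V)) ∧ ¬ strong p.1 p.2} from ⟨⟨by simp, by simp⟩, hxy⟩) hz
    have hU1 : {u | u ∈ M ∧ strong u v}.Finite := by
      by_contra hinf
      obtain ⟨a, ha1, ha2, -⟩ := sdr N (fun _ => {u | u ∈ M ∧ strong u v}) (fun _ => hinf) ∅
        Set.finite_empty
      obtain ⟨d, hd1, hd2, hd3⟩ := sdr N (fun i => codeg K (a i) v) (fun i => (ha2 i).2)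
        (T a ∪ (Set.range a)) ((hT1 a ha1).union (Set.finite_range _))
      refine hT2 a ha1 ⟨v, d, hd2, hd1, ?_, ?_, ?_, ?_⟩
      · intro hv
        exact hvM (hTS a ha1 (fun i => (ha2 i).1) v hv hvS)
      · exact fun i hi => hd3 i (Or.inl hi)
      · rintro ⟨i, rfl⟩
        exact hvM (ha2 i).1
      · exact fun i hi => hd3 i (Or.inr hi)
    have hU2 : {u | u ∈ M ∧ ∃ w, w ∈ S ∧ T3 K u v w ∧ ¬ strong u w ∧ ¬ strong v w}.Finite := by
      by_contra hinf
      set U := {u | u ∈ M ∧ ∃ w, w ∈ S ∧ T3 K u v w ∧ ¬ strong u w ∧ ¬ strong v w} with hU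
      choose! w hw using fun (u : V) (hu : u ∈ U) => hu.2
      have hwM : ∀ u ∈ U, w u ∉ M := by
        intro u hu hwu
        exact hvM (hcS u (w u) hu.1 hwu (hw u hu).2.2.1 v (hw u hu).2.1.swap' hvS)
      have himg : (w '' U).Infinite := by
        intro hfin
        apply hinf
        refine Set.Finite.of_finite_fibers w hfin ?_
        intro z hz
        by_cases hz2 : (codeg K v z).Finite
        · refine hz2.subset ?_
          rintro u ⟨hu, rfl⟩
          exact (hw u hu).2.1.swap.swap'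
        · obtain ⟨u, hu, rfl⟩ := hz
          exact ((hw u hu).2.2.2 hz2).elim
      obtain ⟨d, hd1, hd2, -⟩ := sdr N (fun _ => w '' U) (fun _ => himg) ∅ Set.finite_empty
      choose a ha1 ha2 using hd2
      have hainj : Function.Injective a := by
        intro i j hij
        apply hd1
        rw [← ha2 i, ← ha2 j, hij]
      refine hT2 a hainj ⟨v, d, ?_, hd1, ?_, ?_, ?_, ?_⟩
      · intro i
        rw [← ha2 i]
        exact (hw _ (ha1 i)).2.1
      · intro hv
        exact hvM (hTS a hainj (fun i => (ha1 i).1) v hv hvS)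
      · intro i hi
        rw [← ha2 i] at hi
        exact hwM _ (ha1 i) (hTS a hainj (fun i => (ha1 i).1) _ hi (hw _ (ha1 i)).1)
      · rintro ⟨i, rfl⟩
        exact hvM (ha1 i).1
      · rintro i ⟨j, hj⟩
        apply hwM _ (ha1 i)
        rw [ha2 i, ← hj]
        exact (ha1 j).1
    refine (hU1.union hU2).subset ?_
    rintro u ⟨huM, h, hh, hhS, huh, hvh⟩
    have huv : u ≠ v := fun e => hvM (e ▸ huM)
    rcases hh with ⟨x, y, hxy, rfl⟩ | ⟨t, ht, hns, rfl⟩
    · left
      refine ⟨huM, ?_⟩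
      simp only [Set.mem_insert_iff, Set.mem_singleton_iff] at huh hvh
      rcases huh with rfl | rfl <;> rcases hvh with rfl | rfl
      · exact (huv rfl).elim
      · exact hxy
      · exact hssymm _ _ hxy
      · exact (huv rfl).elim
    · right
      have hut : u ∈ t := huh
      have hvt : v ∈ t := hvh
      obtain ⟨w, hw⟩ : ∃ w, t = {u, v, w} := by
        obtain ⟨x, y, z, hxy, hxz, hyz, rfl⟩ := Finset.card_eq_three.mp (K.card_eq t ht)
        simp only [Finset.mem_insert, Finset.mem_singleton] at hut hvt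
        rcases hut with rfl | rfl | rfl <;> rcases hvt with rfl | rfl | rfl
        · exact (huv rfl).elim
        · exact ⟨z, rfl⟩
        · exact ⟨y, by ext q; simp only [Finset.mem_insert, Finset.mem_singleton]; tauto⟩
        · exact ⟨z, by ext q; simp only [Finset.mem_insert, Finset.mem_singleton]; tauto⟩
        · exact (huv rfl).elim
        · exact ⟨x, by ext q; simp only [Finset.mem_insert, Finset.mem_singleton]; tauto⟩
        · exact ⟨y, by ext q; simp only [Finset.mem_insert, Finset.mem_singleton]; tauto⟩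
        · exact ⟨x, by ext q; simp only [Finset.mem_insert, Finset.mem_singleton]; tauto⟩
        · exact (huv rfl).elim
      have hwt : w ∈ t := by rw [hw]; simp
      refine ⟨huM, w, hhS hwt, ?_, hns u hut w hwt, hns v hvt w hwt⟩
      unfold T3
      rw [hw] at ht
      convert ht using 1
  obtain ⟨c, hc⟩ := eh H g h1 h2 h3
  · refine ⟨c, fun t ht hmono => ?_⟩
    obtain ⟨a, ha⟩ := hmono
    by_cases hs : ∃ x ∈ t, ∃ y ∈ t, strong x y
    · obtain ⟨x, hx, y, hy, hxy⟩ := hs
      refine hc {x, y} (Or.inl ⟨x, y, hxy, rfl⟩) ⟨a, ?_⟩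
      rintro z (rfl | rfl)
      · exact ha _ hx
      · exact ha _ hy
    · push Not at hs
      exact hc t (Or.inr ⟨t, ht, hs, rfl⟩) ⟨a, fun x hx => ha x hx⟩

end

end Pool.Agent.H54.TS
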